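import Mathlib

namespace Pool.Agent.Results.MP_ce417a_nt.Counter

open Matrix

/-- the six words `xxyxy, xxyyx, xyxxy, xyyxx, yxxyx, yxyxx` (letter `0` is `x`, letter `1` is
`y`). -/
def P : Fin 6 → List (Fin 2) :=
  ![[0, 0, 1, 0, 1], [0, 0, 1, 1, 0], [0, 1, 0, 0, 1], [0, 1, 1, 0, 0], [1, 0, 0, 1, 0],
    [1, 0, 1, 0, 0]]

/-- `ψ(X) = p_1(X) ⊕ ⋯ ⊕ p_6(X)`; column `(l, j)` is column `j` of `p_l(X)`. -/
def psi (X : Fin 2 → Matrix (Fin 2) (Fin 2) ℝ) : Matrix (Fin 2) (Fin 6 × Fin 2) ℝ :=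
  fun i c => ((P c.1).map X).prod i c.2

def q0 : Fin 6 × Fin 2 → ℤ := fun c => if c.2 = 0 then ![1, -1, -1, 1, 1, -1] c.1 else 0

lemma hall (X : Fin 2 → Matrix (Fin 2) (Fin 2) ℝ) : psi X *ᵥ (fun c => (q0 c : ℝ)) = 0 := by
  ext i
  fin_cases i <;>
    simp [psi, P, q0, mulVec, dotProduct, Fintype.sum_prod_type, Fin.sum_univ_succ,
      Matrix.mul_apply] <;> ring

/-- The words are nonempty and pairwise distinct, and for every `X` and every exponent `w` there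
are infinitely many nonzero integer vectors `q` with `‖ψ(X) q - p‖ < ‖q‖ ^ (-w)` and
`∏ |(ψ(X) q - p)_i| < (∏ max (|q_j|, 1)) ^ (-w)` for some integer vector `p`. -/
theorem result : Function.Injective P ∧ (∀ l, P l ≠ []) ∧
    ∀ (X : Fin 2 → Matrix (Fin 2) (Fin 2) ℝ) (w : ℝ),
      {q : Fin 6 × Fin 2 → ℤ | q ≠ 0 ∧ ∃ p : Fin 2 → ℤ,
        ‖psi X *ᵥ (fun c => (q c : ℝ)) - fun i => (p i : ℝ)‖ < ‖fun c => (q c : ℝ)‖ ^ (-w) ∧
        ∏ i, |(psi X *ᵥ (fun c => (q c : ℝ)) - fun i => (p i : ℝ)) i| <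
          (∏ c, max |(q c : ℝ)| 1) ^ (-w)}.Infinite := by
  refine ⟨by decide, by decide, fun X w => ?_⟩
  refine Set.infinite_of_injective_forall_mem (f := fun k : ℕ => ((k : ℤ) + 1) • q0)
    (fun a b h => ?_) fun k => ?_
  · have := congrFun h (0, 0)
    simpa [q0] using this
  · have h0 : ((k : ℤ) + 1) • q0 ≠ 0 := fun h => by
      have := congrFun h (0, 0)
      simp [q0] at this
      omega
    have h1 : psi X *ᵥ (fun c => ((((k : ℤ) + 1) • q0) c : ℝ)) = 0 := by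
      have : (fun c => ((((k : ℤ) + 1) • q0) c : ℝ)) = ((k : ℝ) + 1) • fun c => (q0 c : ℝ) := by
        ext c; simp
      rw [this, mulVec_smul, hall, smul_zero]
    refine ⟨h0, 0, ?_, ?_⟩
    · rw [h1]
      have : (0 : Fin 2 → ℝ) - (fun i => (((0 : Fin 2 → ℤ) i : ℤ) : ℝ)) = 0 := by ext i; simp
      rw [this, norm_zero]
      refine Real.rpow_pos_of_pos (norm_pos_iff.2 fun h => h0 ?_) _
      ext c
      exact Int.cast_eq_zero.1 (congrFun h c)
    · rw [h1]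
      simp only [Pi.zero_apply, Int.cast_zero, Pi.sub_apply, sub_zero, abs_zero, Finset.prod_const,
        Finset.card_univ, Fintype.card_fin, ne_eq, OfNat.ofNat_ne_zero, not_false_eq_true, zero_pow]
      exact Real.rpow_pos_of_pos (Finset.prod_pos fun c _ => lt_max_of_lt_right one_pos) _

end Pool.Agent.Results.MP_ce417a_nt.Counter
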